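import Pool.Agent.P8H48.LV.Stm

set_option autoImplicit false

/-!
# Project LV (helper48), package TWD: the union of two open affine spaces
-/

open CategoryTheory AlgebraicGeometry Pool.Agent.Y116.UV Pool.Agent.Z125.UN Pool.Agent.R904.TR
open Pool.Agent.R904.CU Pool.Agent.P8H48.DC Pool.Agent.P8H48.LV

namespace Pool.Agent.P8H54.LV

/-- a closed subscheme of `Spec A` which is a closed subscheme of `X`, inside the open subscheme `Spec A` of `X` -/
lemma exists_ideal {k A : Type} [CommRing k] [CommRing A] [Algebra k A] {X Z : Sch k} (i : Z ⟶ X) (j : aff k A ⟶ X)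
    (hi : IsClosedImmersion i.left) (hj : IsOpenImmersion j.left) (h : Set.range i.left ⊆ Set.range j.left) :
    ∃ I : Ideal A, Nonempty (aff k (A ⧸ I) ≅ Z) := by
  let l : Z.left ⟶ (aff k A).left := IsOpenImmersion.lift j.left i.left h
  have hl : l ≫ j.left = i.left := IsOpenImmersion.lift_fac _ _ _
  have hcl : IsClosedImmersion (l ≫ j.left) := by rw [hl]; exact hi
  have hc : IsClosedImmersion l := IsClosedImmersion.of_comp l j.left
  let l' : Z.left ⟶ Spec (CommRingCat.of A) := l
  have hc' : IsClosedImmersion l' := hc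
  obtain ⟨I, e, he⟩ := IsClosedImmersion.Spec_iff.1 hc'
  let φ : Spec (CommRingCat.of A) ⟶ Spec (CommRingCat.of k) := Spec.map (CommRingCat.ofHom (algebraMap k A))
  have h1 : Spec.map (CommRingCat.ofHom (algebraMap k (A ⧸ I))) =
      Spec.map (CommRingCat.ofHom (Ideal.Quotient.mk I)) ≫ φ := by
    rw [← Spec.map_comp, ← CommRingCat.ofHom_comp]
  have h2 : j.left ≫ X.hom = φ := Over.w j
  have h3 : i.left ≫ X.hom = Z.hom := Over.w i
  have h5 : l' ≫ φ = Z.hom := by
    have h6 : l ≫ (j.left ≫ X.hom) = Z.hom := by rw [← Category.assoc, hl, h3]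
    exact (congrArg (fun t => l' ≫ t) h2).symm.trans h6
  have h7 : e.hom ≫ Spec.map (CommRingCat.ofHom (algebraMap k (A ⧸ I))) = Z.hom := by
    have h8 : e.hom ≫ (Spec.map (CommRingCat.ofHom (Ideal.Quotient.mk I)) ≫ φ) = Z.hom := by
      rw [← Category.assoc]
      exact (congrArg (fun t => t ≫ φ) he).symm.trans h5
    exact (congrArg (fun t => e.hom ≫ t) h1).trans h8
  exact ⟨I, ⟨(Over.isoMk (f := Z) (g := aff k (A ⧸ I)) e h7).symm⟩⟩

theorem twd : S_TWD := by
  intro k _ P hP hPol n d hdim X j1 j2 hX h1 h2 hcov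
  have hU : P n (aff k (MvPolynomial (Fin (d + 1)) k)) :=
    (hPol k P hP n k (Fin (d + 1))).1 (hP.base n)
  let V : X.left.Opens := j1.left.opensRange
  have hV : (V : Set X.left) = Set.range j1.left := rfl
  have htri : IsTriple (cloMap X V) j1 := ⟨inferInstance, h1, by rw [range_cloMap, hV]⟩
  refine hP.total n (cloMap X V) j1 hX htri ?_ hU
  obtain ⟨I, ⟨e⟩⟩ := exists_ideal (cloMap X V) j2 inferInstance h2 (by
    rw [range_cloMap, hV]
    intro x hx
    have hx2 : x ∈ Set.range j1.left ∪ Set.range j2.left := by rw [hcov]; trivial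
    rcases hx2 with hx2 | hx2
    · exact absurd hx2 hx
    · exact hx2)
  refine hP.iso n (ft_aff False) ⟨e⟩ ?_
  by_cases hI : I = ⊥
  · subst hI
    exact hP.iso n (ft_aff False) ⟨affIso (AlgEquiv.quotientBot k (MvPolynomial (Fin (d + 1)) k))⟩ hU
  · exact hdim _ (dim_quot I hI)

end Pool.Agent.P8H54.LV
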